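import Pool.Agent.Q151.LG.Zs

set_option autoImplicit false
set_option linter.unusedSectionVars false

/-!
# JOB LG-UP: the logarithmic upper bound
-/

namespace Pool.Agent.Q151.LG

open Matrix TH57.Thr TH6.LF
open Pool.Agent.Q181.LW (LB Mono exists_NS)
open Pool.Agent.Q181.LR
open Pool.Agent.Q181.LG

section mono

variable {G : Type} [Group G] {ι κ μ ν : Type} [Fintype ι] [Fintype κ] [Fintype μ] [Fintype ν]
  [DecidableEq ι] [DecidableEq κ] [DecidableEq μ] [DecidableEq ν]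

theorem gap_mono {A : Matrix ι κ (MonoidAlgebra ℤ G)} {D D' : ℝ} (h : D ≤ D')
    (hA : Gapped A D) : Gapped A D' := by
  intro x ε hε
  obtain ⟨x', h1, h2⟩ := hA x ε hε
  refine ⟨x', h1, h2.trans ?_⟩
  have := mul_le_mul_of_nonneg_right h (normSq_nonneg (x ᵥ* toReal A))
  linarith

theorem gi_mono {A : Matrix ι κ (MonoidAlgebra ℤ G)} {K K' : ℝ} (h0 : 0 ≤ K) (h : K ≤ K')
    (hA : GI A K) : GI A K' := by
  obtain ⟨Y, h1, h2⟩ := hA
  exact ⟨Y, h1, Pool.Agent.Q181.LW.NormLE_mono h0 h h2⟩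

theorem gap_sub (e : μ ≃ ι) (f : ν ≃ κ) {A : Matrix ι κ (MonoidAlgebra ℤ G)} {D : ℝ}
    (hA : Gapped A D) : Gapped (A.submatrix e f) D := by
  intro x ε hε
  obtain ⟨x', h1, h2⟩ := hA (x ∘ e.symm) ε hε
  refine ⟨x' ∘ e, ?_, ?_⟩
  · rw [Pool.Agent.Q181.LR.vecMul_sub, normSq_comp_equiv]
    have h3 : (x' ∘ e) ∘ e.symm = x' := by
      funext i
      simp
    rw [h3]
    exact h1
  · rw [Pool.Agent.Q181.LR.vecMul_sub, normSq_comp_equiv]
    have h3 : normSq (x - x' ∘ e) = normSq (x ∘ e.symm - x') := by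
      rw [← normSq_comp_equiv e.symm (x - x' ∘ e)]
      congr 1
      funext i
      simp
    rw [h3]
    exact h2

theorem gi_sub (e : μ ≃ ι) (f : ν ≃ κ) {A : Matrix ι κ (MonoidAlgebra ℤ G)} {K : ℝ}
    (hA : GI A K) : GI (A.submatrix e f) K := by
  obtain ⟨Y, h1, h2⟩ := hA
  refine ⟨Y.submatrix f e, ?_, NormLE_sub f e Y K h2⟩
  rw [Matrix.submatrix_mul_equiv, Matrix.submatrix_mul_equiv, h1]

end mono

/-- the second step -/
theorem step_two (hq : S_eqv) (hzs : S_zs) {G : Type} [Group G] {ι κ : Type} [Fintype ι]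
    [DecidableEq ι] [Fintype κ] [DecidableEq κ] {X : Type} [Fintype X] [DecidableEq X]
    (A : Matrix ι κ (MonoidAlgebra ℤ G))
    (B : Matrix (ι ⊕ X) (κ ⊕ X) (MonoidAlgebra ℤ G)) (hAB : Eqv A B)
    (hM : ∀ i j, Mono (B i j)) (hr : ∀ i, ∃ T : Finset (κ ⊕ X), T.card ≤ 3 ∧
      ∀ j, B i j ≠ 0 → j ∈ T) (hc : ∀ j, ∃ T : Finset (ι ⊕ X), T.card ≤ 3 ∧
      ∀ i, B i j ≠ 0 → i ∈ T) :
    ∃ C : ℕ, ∀ L : ℕ, 1 ≤ L → ∃ (m : ℕ) (B' : Matrix (ι ⊕ Fin m) (κ ⊕ Fin m) (MonoidAlgebra ℤ G)),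
      Eqv A B' ∧ m ≤ C * L ∧ NormLE B' (3 / Real.sqrt 2 + (1 / 2) ^ L) ∧
        (∀ D : ℝ, 0 ≤ D → Gapped A D → Gapped B' (C * (D + 1) * L ^ 2)) ∧
        ∀ K : ℝ, 0 ≤ K → GI A K → GI B' (C * (K + 1) * L) := by
  classical
  obtain ⟨C₁, hC₁, hC₂⟩ := hq G ι κ X A B hAB
  set c₀ := Fintype.card X
  set e₀ := Fintype.card (ME B)
  refine ⟨c₀ + 3 * e₀ + 9 * (42 * C₁ + 2) + 21 * (C₁ + 1), fun L hL => ?_⟩
  have hs : ∀ i, ((Finset.univ.filter fun e => ME.s B e = i).card : ℝ) ≤ 3 := by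
    intro i
    obtain ⟨T, h1, h2⟩ := hr i
    exact_mod_cast (ME.card_s B i T h2).trans h1
  have ht : ∀ i, ((Finset.univ.filter fun e => ME.t B e = i).card : ℝ) ≤ 3 := by
    intro j
    obtain ⟨T, h1, h2⟩ := hc j
    exact_mod_cast (ME.card_t B j T h2).trans h1
  have hN := norm_Zs (ME.s B) (ME.t B) (ME.z B) (L + 2) (θ := 1 / Real.sqrt 2) (by positivity)
    sq_half (by omega) hs ht (ME.mono B hM)
  have hE : Eqv B (Zs (ME.s B) (ME.t B) (ME.z B) (L + 2)) :=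
    eqv_dil B _ _ _ (Vs (L + 2)) (VsUs (L + 2)) (UsVs (L + 2))
      (QVS (ME.s B) (ME.t B) (ME.z B) (L + 2) (by omega) B (ME.isSum B))
  have hE2 := eqv_trans A B _ hAB hE
  let e : Fin (Fintype.card (X ⊕ (ME B × Fin (L + 2)))) ≃ X ⊕ (ME B × Fin (L + 2)) :=
    (Fintype.equivFin _).symm
  have hE3 := eqv_re A _ e hE2
  have hz2 := hzs G (ι ⊕ X) (κ ⊕ X) (ME B) (ME.s B) (ME.t B) (ME.z B) (L + 2) (by omega) hs ht
    (ME.mono B hM) B (ME.isSum B)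
  have h3 : (1 : ℝ) ≤ L := by exact_mod_cast hL
  have h4 : (0 : ℝ) ≤ c₀ := Nat.cast_nonneg _
  have h5 : (0 : ℝ) ≤ e₀ := Nat.cast_nonneg _
  have h6 : (0 : ℝ) ≤ C₁ := Nat.cast_nonneg _
  refine ⟨_, _, hE3, ?_, ?_, ?_, ?_⟩
  · rw [Fintype.card_sum, Fintype.card_prod, Fintype.card_fin]
    change c₀ + e₀ * (L + 2) ≤ _
    have h1 : c₀ ≤ c₀ * L := Nat.le_mul_of_pos_right _ hL
    have h2 : e₀ * (L + 2) ≤ 3 * e₀ * L := by nlinarith [Nat.zero_le e₀]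
    nlinarith [Nat.zero_le C₁]
  · refine NormLE_sub _ _ _ _ (NormLE_sub _ _ _ _ ?_)
    refine Pool.Agent.Q181.LW.NormLE_mono (by positivity) ?_ hN
    have h1 : 3 * (1 / Real.sqrt 2) = 3 / Real.sqrt 2 := by ring
    rw [h1, pow_add]
    have h2 : (0 : ℝ) < (1 / 2) ^ L := by positivity
    norm_num
    linarith
  · intro D hD hA
    refine gap_sub _ _ (gap_sub _ _ ?_)
    have h2 := hz2.1 (C₁ * (D + 1)) (by positivity) (hC₁ D hD hA)
    refine gap_mono ?_ h2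
    have h7 : ((L + 2 : ℕ) : ℝ) ^ 2 ≤ 9 * L ^ 2 := by
      push_cast
      nlinarith
    have h8 : 42 * (C₁ * (D + 1)) + 2 ≤ (42 * C₁ + 2) * (D + 1) := by nlinarith
    calc (42 * (C₁ * (D + 1)) + 2) * ((L + 2 : ℕ) : ℝ) ^ 2
        ≤ ((42 * C₁ + 2) * (D + 1)) * (9 * L ^ 2) :=
          mul_le_mul h8 h7 (by positivity) (by positivity)
      _ = (9 * (42 * C₁ + 2)) * ((D + 1) * L ^ 2) := by ring
      _ ≤ (((c₀ + 3 * e₀ + 9 * (42 * C₁ + 2) + 21 * (C₁ + 1) : ℕ) : ℝ)) *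
          ((D + 1) * L ^ 2) := by
          have h9 : 0 ≤ (D + 1) * (L : ℝ) ^ 2 := by positivity
          refine mul_le_mul_of_nonneg_right ?_ h9
          push_cast
          nlinarith
      _ = _ := by ring
  · intro K hK hA
    refine gi_sub _ _ (gi_sub _ _ ?_)
    have h2 := hz2.2 (C₁ * (K + 1)) (by positivity) (hC₂ K hK hA)
    refine gi_mono (by positivity) ?_ h2
    have h7 : ((L + 2 : ℕ) : ℝ) ≤ 3 * L := by
      push_cast
      linarith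
    have h8 : C₁ * (K + 1) + 1 ≤ (C₁ + 1) * (K + 1) := by nlinarith
    calc 7 * (C₁ * (K + 1) + 1) * ((L + 2 : ℕ) : ℝ)
        ≤ 7 * ((C₁ + 1) * (K + 1)) * (3 * L) :=
          mul_le_mul (by linarith) h7 (by positivity) (by positivity)
      _ = (21 * (C₁ + 1)) * ((K + 1) * L) := by ring
      _ ≤ (((c₀ + 3 * e₀ + 9 * (42 * C₁ + 2) + 21 * (C₁ + 1) : ℕ) : ℝ)) *
          ((K + 1) * L) := by
          have h9 : 0 ≤ (K + 1) * (L : ℝ) := by positivity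
          refine mul_le_mul_of_nonneg_right ?_ h9
          push_cast
          nlinarith
      _ = _ := by ring

theorem t_up : S_eqv → S_zs → S_up := by
  intro hq hzs G _ ι κ _ _ _ _ A
  classical
  obtain ⟨m₀, s, t, z, hA, hz⟩ := exists_edges_fin A
  rcases Nat.eq_zero_or_pos m₀ with h0 | h0
  · subst h0
    have hA0 : A = 0 := by
      rw [hA]
      simp
    have hE : Eqv A (fromBlocks A 0 0 1 : Matrix (ι ⊕ Fin 0) (κ ⊕ Fin 0) (MonoidAlgebra ℤ G)) :=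
      ⟨1, 1, by simp⟩
    obtain ⟨C₁, hC₁, hC₂⟩ := hq G ι κ (Fin 0) A _ hE
    refine ⟨C₁, fun L hL => ⟨0, _, hE, Nat.zero_le _, norm_zero_of _ ?_ _, fun D hD hLB => ?_,
      fun K hK hG => ?_⟩⟩
    · subst hA0
      ext1 i j
      rcases i with i | i
      · rcases j with j | j
        · rfl
        · exact j.elim0
      · exact i.elim0
    · refine gap_mono ?_ (hC₁ D hD hLB)
      have h3 : (1 : ℝ) ≤ L := by exact_mod_cast hL
      have h4 : (1 : ℝ) ≤ (L : ℝ) ^ 2 := by nlinarith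
      have h5 : (0 : ℝ) ≤ C₁ * (D + 1) := by positivity
      nlinarith
    · have h5 : (0 : ℝ) ≤ C₁ * (K + 1) := by positivity
      refine gi_mono h5 ?_ (hC₂ K hK hG)
      have h3 : (1 : ℝ) ≤ L := by exact_mod_cast hL
      nlinarith
  · exact step_two hq hzs A (ZC s t z) (eqv_dil A _ _ _ _ (VUC s t z) (UVC s t z)
      (QVSC s t z h0 A hA)) (mono_ZC s t z hz) (ZC_row s t z h0) (ZC_col s t z h0)

end Pool.Agent.Q151.LG
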