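import Pool.Agent.Q181.LG.Stm

set_option autoImplicit false
set_option linter.unusedSectionVars false

/-!
# JOB LG-EQV: the gap of an equivalent matrix
-/

namespace Pool.Agent.Q151.LG

open Matrix TH57.Thr TH6.LF
open Pool.Agent.Q181.LW (LB exists_NS)
open Pool.Agent.Q181.LR (Eqv)
open Pool.Agent.Q181.LG

variable {G : Type} [Group G] {ι κ X : Type} [Fintype ι] [DecidableEq ι] [Fintype κ]
  [DecidableEq κ] [Fintype X] [DecidableEq X]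

theorem normSq_zero' : normSq (0 : ι → MonoidAlgebra ℝ G) = 0 := by
  rw [normSq_eq]
  simp [n1_zero]

theorem vec_block (A : Matrix ι κ (MonoidAlgebra ℤ G)) (a : ι → MonoidAlgebra ℝ G)
    (b : X → MonoidAlgebra ℝ G) :
    Sum.elim a b ᵥ* toReal (fromBlocks A 0 0 1 : Matrix (ι ⊕ X) (κ ⊕ X) (MonoidAlgebra ℤ G)) =
      Sum.elim (a ᵥ* toReal A) b := by
  rw [toReal_fromBlocks, toReal_zero, toReal_zero, toReal_one, Matrix.vecMul_fromBlocks]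
  simp

theorem gap_eqv (A : Matrix ι κ (MonoidAlgebra ℤ G))
    (P : (Matrix (ι ⊕ X) (ι ⊕ X) (MonoidAlgebra ℤ G))ˣ)
    (P' : (Matrix (κ ⊕ X) (κ ⊕ X) (MonoidAlgebra ℤ G))ˣ) (w v p : ℝ) (hw0 : 0 ≤ w)
    (hp0 : 0 ≤ p) (hw : NS P⁻¹.val w) (hv : NS P'⁻¹.val v) (hp : NS P'.val p)
    (C D : ℝ) (hC : w * v ≤ C) (hD : 0 ≤ D) (hA : Gapped A D) :
    Gapped (P.val * (fromBlocks A 0 0 1 : Matrix (ι ⊕ X) (κ ⊕ X) (MonoidAlgebra ℤ G)) * P'.val)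
      (C * (D + 1)) := by
  intro x ε hε
  have e1 : x = (x ᵥ* toReal P.val) ᵥ* toReal P⁻¹.val := by
    rw [Matrix.vecMul_vecMul, ← toReal_mul, P.mul_inv, toReal_one, Matrix.vecMul_one]
  obtain ⟨y, hy⟩ : ∃ y, y = x ᵥ* toReal P.val := ⟨_, rfl⟩
  rw [← hy] at e1
  obtain ⟨y₁, hy₁⟩ : ∃ y₁, y₁ = y ∘ Sum.inl := ⟨_, rfl⟩
  obtain ⟨y₂, hy₂⟩ : ∃ y₂, y₂ = y ∘ Sum.inr := ⟨_, rfl⟩
  have hyy : y = Sum.elim y₁ y₂ := by rw [hy₁, hy₂, Sum.elim_comp_inl_inr]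
  have e2 : ∀ t : ι ⊕ X → MonoidAlgebra ℝ G, t ᵥ* toReal (P.val * (fromBlocks A 0 0 1 :
      Matrix (ι ⊕ X) (κ ⊕ X) (MonoidAlgebra ℤ G)) * P'.val) =
      ((t ᵥ* toReal P.val) ᵥ* toReal (fromBlocks A 0 0 1 :
        Matrix (ι ⊕ X) (κ ⊕ X) (MonoidAlgebra ℤ G))) ᵥ* toReal P'.val := by
    intro t
    rw [toReal_mul, toReal_mul, ← Matrix.vecMul_vecMul, ← Matrix.vecMul_vecMul]
  have e3 : ∀ t : κ ⊕ X → MonoidAlgebra ℝ G, t = (t ᵥ* toReal P'.val) ᵥ* toReal P'⁻¹.val := by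
    intro t
    rw [Matrix.vecMul_vecMul, ← toReal_mul, P'.mul_inv, toReal_one, Matrix.vecMul_one]
  obtain ⟨δ, hδ0, hδ1, hδ2⟩ : ∃ δ : ℝ, 0 < δ ∧ p * δ ≤ ε ∧ w * δ ≤ ε := by
    have h0 : 0 < p + w + 1 := by linarith
    refine ⟨ε / (p + w + 1), by positivity, ?_, ?_⟩
    · rw [← mul_div_assoc, div_le_iff₀ h0]
      nlinarith
    · rw [← mul_div_assoc, div_le_iff₀ h0]
      nlinarith
  obtain ⟨y', h1, h2⟩ := hA y₁ δ hδ0
  refine ⟨Sum.elim y' 0 ᵥ* toReal P⁻¹.val, ?_, ?_⟩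
  · have h3 : (Sum.elim y' 0 ᵥ* toReal P⁻¹.val) ᵥ* toReal P.val =
        (Sum.elim y' 0 : ι ⊕ X → MonoidAlgebra ℝ G) := by
      rw [Matrix.vecMul_vecMul, ← toReal_mul, P.inv_mul, toReal_one, Matrix.vecMul_one]
    rw [e2, h3, vec_block]
    refine (hp _).trans ?_
    rw [normSq_elim, normSq_zero', add_zero]
    calc p * normSq (y' ᵥ* toReal A) ≤ p * δ := mul_le_mul_of_nonneg_left h1 hp0
      _ ≤ ε := hδ1
  · have h3 : x - Sum.elim y' 0 ᵥ* toReal P⁻¹.val =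
        Sum.elim (y₁ - y') y₂ ᵥ* toReal P⁻¹.val := by
      nth_rw 1 [e1]
      rw [← Matrix.sub_vecMul, hyy]
      congr 1
      funext i
      rcases i with i | i
      · rfl
      · show y₂ i - 0 = y₂ i
        rw [sub_zero]
    rw [h3]
    have h4 := hw (Sum.elim (y₁ - y') y₂)
    rw [normSq_elim] at h4
    have h5 : x ᵥ* toReal (P.val * (fromBlocks A 0 0 1 :
        Matrix (ι ⊕ X) (κ ⊕ X) (MonoidAlgebra ℤ G)) * P'.val) =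
        Sum.elim (y₁ ᵥ* toReal A) y₂ ᵥ* toReal P'.val := by
      rw [e2, ← hy, hyy, vec_block]
    rw [h5]
    have h6 := hv (Sum.elim (y₁ ᵥ* toReal A) y₂ ᵥ* toReal P'.val)
    rw [← e3, normSq_elim] at h6
    obtain ⟨N, hN⟩ : ∃ N, N = normSq (Sum.elim (y₁ ᵥ* toReal A) y₂ ᵥ* toReal P'.val) :=
      ⟨_, rfl⟩
    have n0 : 0 ≤ N := by
      rw [hN]
      exact normSq_nonneg _
    rw [← hN] at h6 ⊢
    have n1 := normSq_nonneg (y₁ ᵥ* toReal A)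
    have n2 := normSq_nonneg y₂
    calc normSq (Sum.elim (y₁ - y') y₂ ᵥ* toReal P⁻¹.val)
        ≤ w * (normSq (y₁ - y') + normSq y₂) := h4
      _ ≤ w * ((D + 1) * (normSq (y₁ ᵥ* toReal A) + normSq y₂) + δ) := by
          refine mul_le_mul_of_nonneg_left ?_ hw0
          nlinarith
      _ ≤ w * ((D + 1) * (v * N) + δ) := by
          refine mul_le_mul_of_nonneg_left ?_ hw0
          have := mul_le_mul_of_nonneg_left h6 (show (0 : ℝ) ≤ D + 1 by linarith)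
          linarith
      _ = (w * v) * ((D + 1) * N) + w * δ := by ring
      _ ≤ C * ((D + 1) * N) + ε := by
          have := mul_le_mul_of_nonneg_right hC (mul_nonneg (show (0 : ℝ) ≤ D + 1 by linarith) n0)
          linarith
      _ = _ := by ring

theorem gi_eqv (A : Matrix ι κ (MonoidAlgebra ℤ G))
    (P : (Matrix (ι ⊕ X) (ι ⊕ X) (MonoidAlgebra ℤ G))ˣ)
    (P' : (Matrix (κ ⊕ X) (κ ⊕ X) (MonoidAlgebra ℤ G))ˣ) (w v : ℝ) (hw0 : 0 ≤ w)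
    (hw : NS P⁻¹.val w) (hv : NS P'⁻¹.val v)
    (C K : ℝ) (hC : w * v ≤ C) (hC1 : 1 ≤ C) (hK : 0 ≤ K) (hA : GI A K) :
    GI (P.val * (fromBlocks A 0 0 1 : Matrix (ι ⊕ X) (κ ⊕ X) (MonoidAlgebra ℤ G)) * P'.val)
      (C * (K + 1)) := by
  obtain ⟨Y, hY, hK'⟩ := hA
  refine ⟨P'⁻¹.val * (fromBlocks Y 0 0 1 : Matrix (κ ⊕ X) (ι ⊕ X) (MonoidAlgebra ℤ G)) * P⁻¹.val,
    ?_, ?_⟩
  · have h1 : (fromBlocks A 0 0 1 : Matrix (ι ⊕ X) (κ ⊕ X) (MonoidAlgebra ℤ G)) *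
        (fromBlocks Y 0 0 1 : Matrix (κ ⊕ X) (ι ⊕ X) (MonoidAlgebra ℤ G)) *
        (fromBlocks A 0 0 1 : Matrix (ι ⊕ X) (κ ⊕ X) (MonoidAlgebra ℤ G)) =
        fromBlocks A 0 0 1 := by
      rw [fromBlocks_multiply, fromBlocks_multiply]
      simp [hY]
    calc P.val * (fromBlocks A 0 0 1 : Matrix (ι ⊕ X) (κ ⊕ X) (MonoidAlgebra ℤ G)) * P'.val *
        (P'⁻¹.val * (fromBlocks Y 0 0 1 : Matrix (κ ⊕ X) (ι ⊕ X) (MonoidAlgebra ℤ G)) *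
          P⁻¹.val) *
        (P.val * (fromBlocks A 0 0 1 : Matrix (ι ⊕ X) (κ ⊕ X) (MonoidAlgebra ℤ G)) * P'.val)
        = P.val * ((fromBlocks A 0 0 1 : Matrix (ι ⊕ X) (κ ⊕ X) (MonoidAlgebra ℤ G)) *
          (P'.val * P'⁻¹.val) *
          (fromBlocks Y 0 0 1 : Matrix (κ ⊕ X) (ι ⊕ X) (MonoidAlgebra ℤ G)) *
          (P⁻¹.val * P.val) *
          (fromBlocks A 0 0 1 : Matrix (ι ⊕ X) (κ ⊕ X) (MonoidAlgebra ℤ G))) * P'.val := by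
          simp only [Matrix.mul_assoc]
      _ = _ := by
          rw [P'.mul_inv, P.inv_mul, Matrix.mul_one, Matrix.mul_one, h1]
  · intro x
    have e2 : x ᵥ* toReal (P'⁻¹.val * (fromBlocks Y 0 0 1 :
        Matrix (κ ⊕ X) (ι ⊕ X) (MonoidAlgebra ℤ G)) * P⁻¹.val) =
        ((x ᵥ* toReal P'⁻¹.val) ᵥ* toReal (fromBlocks Y 0 0 1 :
          Matrix (κ ⊕ X) (ι ⊕ X) (MonoidAlgebra ℤ G))) ᵥ* toReal P⁻¹.val := by
      rw [toReal_mul, toReal_mul, ← Matrix.vecMul_vecMul, ← Matrix.vecMul_vecMul]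
    rw [e2]
    obtain ⟨y, hy⟩ : ∃ y, y = x ᵥ* toReal P'⁻¹.val := ⟨_, rfl⟩
    have h1 := hv x
    rw [← hy] at h1 ⊢
    have h2 := hw (y ᵥ* toReal (fromBlocks Y 0 0 1 :
          Matrix (κ ⊕ X) (ι ⊕ X) (MonoidAlgebra ℤ G)))
    have h3 : normSq (y ᵥ* toReal (fromBlocks Y 0 0 1 :
          Matrix (κ ⊕ X) (ι ⊕ X) (MonoidAlgebra ℤ G))) ≤ (K + 1) ^ 2 * normSq y := by
      have h4 : y = Sum.elim (y ∘ Sum.inl) (y ∘ Sum.inr) := (Sum.elim_comp_inl_inr y).symm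
      rw [h4, vec_block, normSq_elim, normSq_elim]
      have h5 := hK' (y ∘ Sum.inl)
      have h6 := normSq_nonneg (y ∘ Sum.inl)
      have h7 := normSq_nonneg (y ∘ Sum.inr)
      have h8 : K ^ 2 ≤ (K + 1) ^ 2 := by nlinarith
      have h9 : 1 ≤ (K + 1) ^ 2 := by nlinarith
      have h10 := mul_le_mul_of_nonneg_right h8 h6
      have h11 := mul_le_mul_of_nonneg_right h9 h7
      linarith
    have n0 := normSq_nonneg x
    have n1 : 0 ≤ (K + 1) ^ 2 := sq_nonneg _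
    calc _ ≤ w * normSq (y ᵥ* toReal (fromBlocks Y 0 0 1 :
          Matrix (κ ⊕ X) (ι ⊕ X) (MonoidAlgebra ℤ G))) := h2
      _ ≤ w * ((K + 1) ^ 2 * normSq y) := mul_le_mul_of_nonneg_left h3 hw0
      _ ≤ w * ((K + 1) ^ 2 * (v * normSq x)) :=
          mul_le_mul_of_nonneg_left (mul_le_mul_of_nonneg_left h1 n1) hw0
      _ = (w * v) * ((K + 1) ^ 2 * normSq x) := by ring
      _ ≤ C ^ 2 * ((K + 1) ^ 2 * normSq x) := by
          refine mul_le_mul_of_nonneg_right ?_ (mul_nonneg n1 n0)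
          nlinarith
      _ = _ := by ring

theorem t_eqv : S_eqv := by
  intro G _ ι κ X _ _ _ _ _ _ A B h
  obtain ⟨P, P', rfl⟩ := h
  obtain ⟨w, hw0, hw⟩ := exists_NS P⁻¹.val
  obtain ⟨v, hv0, hv⟩ := exists_NS P'⁻¹.val
  obtain ⟨p, hp0, hp⟩ := exists_NS P'.val
  obtain ⟨C, hC⟩ := exists_nat_ge (w * v + 1)
  have h1 : w * v ≤ C := by linarith
  have h2 : (1 : ℝ) ≤ C := by nlinarith [mul_nonneg hw0 hv0]
  exact ⟨C, fun D hD hA => gap_eqv A P P' w v p hw0 hp0 hw hv hp C D h1 hD hA,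
    fun K hK hA => gi_eqv A P P' w v hw0 hw hv C K h1 h2 hK hA⟩

end Pool.Agent.Q151.LG
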