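import Pool.Agent.Q151.LG.Eqv

set_option autoImplicit false
set_option linter.unusedSectionVars false

/-!
# JOB LG-ZS: the gap of the subdivided matrix
-/

namespace Pool.Agent.Q151.LG

open Matrix TH57.Thr TH6.LF
open Pool.Agent.Q181.LW (LB Mono normSq_sub_le)
open Pool.Agent.Q181.LG

variable {G : Type} [Group G] {ι κ X : Type} [Fintype ι] [DecidableEq ι] [Fintype κ]
  [DecidableEq κ] [Fintype X] [DecidableEq X]

theorem vec_mul (M : Matrix ι κ (MonoidAlgebra ℤ G)) (N : Matrix κ X (MonoidAlgebra ℤ G))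
    (x : ι → MonoidAlgebra ℝ G) :
    (x ᵥ* toReal M) ᵥ* toReal N = x ᵥ* toReal (M * N) := by
  rw [Matrix.vecMul_vecMul, ← toReal_mul]

theorem vec_dil (Q : Matrix ι X (MonoidAlgebra ℤ G)) (S : Matrix X κ (MonoidAlgebra ℤ G))
    (U : Matrix X X (MonoidAlgebra ℤ G)) (a : ι → MonoidAlgebra ℝ G)
    (b : X → MonoidAlgebra ℝ G) :
    Sum.elim a b ᵥ* toReal (fromBlocks 0 Q S U : Matrix (ι ⊕ X) (κ ⊕ X) (MonoidAlgebra ℤ G)) =
      Sum.elim (b ᵥ* toReal S) (a ᵥ* toReal Q + b ᵥ* toReal U) := by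
  rw [toReal_fromBlocks, toReal_zero, Matrix.vecMul_fromBlocks]
  simp

section abs

variable (A : Matrix ι κ (MonoidAlgebra ℤ G)) (Q : Matrix ι X (MonoidAlgebra ℤ G))
  (S : Matrix X κ (MonoidAlgebra ℤ G)) (U V : Matrix X X (MonoidAlgebra ℤ G))
  (hUV : U * V = 1) (hVU : V * U = 1) (hA : A = -(Q * V * S)) (l : ℝ) (hl : 1 ≤ l)
  (hS : NS (V * S) (3 * l)) (hQ : NS (Q * V) (3 * l)) (hV : NS V (l * l))

include hUV hVU hA

theorem zk_eq (a : ι → MonoidAlgebra ℝ G) (b : X → MonoidAlgebra ℝ G) :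
    a ᵥ* toReal A = b ᵥ* toReal S - (a ᵥ* toReal Q + b ᵥ* toReal U) ᵥ* toReal (V * S) := by
  have h1 : Q * (V * S) = -A := by rw [hA, neg_neg, Matrix.mul_assoc]
  have h2 : U * (V * S) = S := by rw [← Matrix.mul_assoc, hUV, Matrix.one_mul]
  rw [Matrix.add_vecMul, vec_mul, vec_mul, h1, h2, toReal_neg, Matrix.vecMul_neg]
  abel

theorem yx_eq (a : ι → MonoidAlgebra ℝ G) (b : X → MonoidAlgebra ℝ G) :
    b = (a ᵥ* toReal Q + b ᵥ* toReal U) ᵥ* toReal V - a ᵥ* toReal (Q * V) := by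
  rw [Matrix.add_vecMul, vec_mul, vec_mul, hUV, toReal_one, Matrix.vecMul_one]
  abel

include hl hS hQ hV in
theorem gap_abs (D : ℝ) (hD0 : 0 ≤ D) (hD : Gapped A D) :
    Gapped (fromBlocks 0 Q S U : Matrix (ι ⊕ X) (κ ⊕ X) (MonoidAlgebra ℤ G))
      ((42 * D + 2) * l ^ 2) := by
  intro y ε hε
  obtain ⟨yk, hyk⟩ : ∃ yk, yk = y ∘ Sum.inl := ⟨_, rfl⟩
  obtain ⟨yx, hyx⟩ : ∃ yx, yx = y ∘ Sum.inr := ⟨_, rfl⟩
  have hy : y = Sum.elim yk yx := by rw [hyk, hyx, Sum.elim_comp_inl_inr]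
  obtain ⟨zk, hzk⟩ : ∃ zk, zk = yx ᵥ* toReal S := ⟨_, rfl⟩
  obtain ⟨zx, hzx⟩ : ∃ zx, zx = yk ᵥ* toReal Q + yx ᵥ* toReal U := ⟨_, rfl⟩
  have h2 := zk_eq A Q S U V hUV hVU hA yk yx
  have h3 := yx_eq A Q S U V hUV hVU hA yk yx
  rw [← hzx] at h2 h3
  rw [← hzk] at h2
  have hl0 : 0 < l := by linarith
  obtain ⟨δ, hδ0, hδ1, hδ2⟩ : ∃ δ : ℝ, 0 < δ ∧ 7 * l * δ ≤ ε ∧ δ ≤ ε := by
    refine ⟨ε / (7 * l), by positivity, ?_, ?_⟩
    · rw [mul_div_cancel₀ _ (by positivity)]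
    · rw [div_le_iff₀ (by positivity)]
      nlinarith
  obtain ⟨y', g1, g2⟩ := hD yk δ hδ0
  refine ⟨Sum.elim y' (-(y' ᵥ* toReal (Q * V))), ?_, ?_⟩
  · have e1 : Q * V * S = -A := by rw [hA, neg_neg]
    have e2 : Q * V * U = Q := by rw [Matrix.mul_assoc, hVU, Matrix.mul_one]
    rw [vec_dil, Matrix.neg_vecMul, vec_mul, Matrix.neg_vecMul, vec_mul, e1, e2, toReal_neg,
      Matrix.vecMul_neg, neg_neg, add_neg_cancel, normSq_elim, normSq_zero', add_zero]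
    linarith
  · have e1 : y - Sum.elim y' (-(y' ᵥ* toReal (Q * V))) =
        Sum.elim (yk - y') (zx ᵥ* toReal V - (yk - y') ᵥ* toReal (Q * V)) := by
      rw [hy, Matrix.sub_vecMul]
      nth_rw 1 [h3]
      funext i
      rcases i with i | i
      · rfl
      · show (zx ᵥ* toReal V - yk ᵥ* toReal (Q * V)) i - (-(y' ᵥ* toReal (Q * V))) i =
          (zx ᵥ* toReal V - (yk ᵥ* toReal (Q * V) - y' ᵥ* toReal (Q * V))) i
        simp only [Pi.sub_apply, Pi.neg_apply]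
        abel
    rw [e1, normSq_elim, hy, vec_dil, ← hzk, ← hzx, normSq_elim]
    have n1 := normSq_nonneg zk
    have n2 := normSq_nonneg zx
    have n3 := normSq_nonneg (yk - y')
    have b1 := hS zx
    have b2 := hQ (yk - y')
    have b3 := hV zx
    have b4 := normSq_sub_le zk (zx ᵥ* toReal (V * S))
    rw [← h2] at b4
    have b5 := normSq_sub_le (zx ᵥ* toReal V) ((yk - y') ᵥ* toReal (Q * V))
    have n4 := normSq_nonneg (yk ᵥ* toReal A)
    have c1 : normSq (yk ᵥ* toReal A) ≤ 6 * l * (normSq zk + normSq zx) := by nlinarith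
    have c2 : normSq (yk - y') ≤ D * (6 * l * (normSq zk + normSq zx)) + δ :=
      g2.trans (by
        have := mul_le_mul_of_nonneg_left c1 hD0
        linarith)
    have c3 : normSq (yk - y') + normSq (zx ᵥ* toReal V - (yk - y') ᵥ* toReal (Q * V)) ≤
        7 * l * normSq (yk - y') + 2 * (l * l * normSq zx) := by nlinarith
    have c4 := mul_le_mul_of_nonneg_left c2 (show (0 : ℝ) ≤ 7 * l by linarith)
    have c5 : 0 ≤ l ^ 2 * normSq zk := by positivity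
    calc normSq (yk - y') + normSq (zx ᵥ* toReal V - (yk - y') ᵥ* toReal (Q * V))
        ≤ 7 * l * normSq (yk - y') + 2 * (l * l * normSq zx) := c3
      _ ≤ 7 * l * (D * (6 * l * (normSq zk + normSq zx)) + δ) + 2 * (l * l * normSq zx) := by
          linarith
      _ = 42 * D * l ^ 2 * (normSq zk + normSq zx) + 2 * l ^ 2 * normSq zx + 7 * l * δ := by
          ring
      _ ≤ 42 * D * l ^ 2 * (normSq zk + normSq zx) + 2 * l ^ 2 * (normSq zk + normSq zx) + ε := by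
          linarith
      _ = _ := by ring

include hl hS hQ hV in
theorem gi_abs (K : ℝ) (hK0 : 0 ≤ K) (hK : GI A K) :
    GI (fromBlocks 0 Q S U : Matrix (ι ⊕ X) (κ ⊕ X) (MonoidAlgebra ℤ G))
      (7 * (K + 1) * l) := by
  obtain ⟨Y, hY, hYK⟩ := hK
  refine ⟨(fromBlocks Y (-(Y * (Q * V))) (-(V * S * Y)) (V + V * S * Y * (Q * V)) :
    Matrix (κ ⊕ X) (ι ⊕ X) (MonoidAlgebra ℤ G)), ?_, ?_⟩
  · have e1 : U * (V * S) = S := by rw [← Matrix.mul_assoc, hUV, Matrix.one_mul]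
    have e2 : Q * (V * S) = -A := by rw [hA, neg_neg, Matrix.mul_assoc]
    have e3 : Q * V * S = -A := by rw [hA, neg_neg]
    have e4 : Q * V * U = Q := by rw [Matrix.mul_assoc, hVU, Matrix.mul_one]
    have f1 : (fromBlocks 0 Q S U : Matrix (ι ⊕ X) (κ ⊕ X) (MonoidAlgebra ℤ G)) *
        (fromBlocks Y (-(Y * (Q * V))) (-(V * S * Y)) (V + V * S * Y * (Q * V)) :
          Matrix (κ ⊕ X) (ι ⊕ X) (MonoidAlgebra ℤ G)) =
        fromBlocks (A * Y) (Q * V - A * Y * (Q * V)) 0 1 := by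
      rw [fromBlocks_multiply]
      congr 1
      · rw [Matrix.zero_mul, zero_add, Matrix.mul_neg, ← Matrix.mul_assoc, e2, Matrix.neg_mul,
          neg_neg]
      · rw [Matrix.zero_mul, zero_add, Matrix.mul_add, ← Matrix.mul_assoc Q (V * S * Y) (Q * V),
          ← Matrix.mul_assoc Q (V * S) Y, e2, Matrix.neg_mul, Matrix.neg_mul, sub_eq_add_neg]
      · rw [Matrix.mul_neg, ← Matrix.mul_assoc, e1, add_neg_cancel]
      · rw [Matrix.mul_neg, Matrix.mul_add, hUV, ← Matrix.mul_assoc U (V * S * Y) (Q * V),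
          ← Matrix.mul_assoc U (V * S) Y, e1, ← Matrix.mul_assoc S Y (Q * V)]
        abel
    rw [f1, fromBlocks_multiply]
    congr 1
    · rw [Matrix.mul_zero, zero_add, Matrix.sub_mul, e3, Matrix.mul_assoc, e3, Matrix.mul_neg, hY]
      abel
    · rw [Matrix.sub_mul, e4, Matrix.mul_assoc (A * Y), e4]
      abel
    · rw [Matrix.zero_mul, zero_add, Matrix.one_mul]
    · rw [Matrix.zero_mul, zero_add, Matrix.one_mul]
  · intro z
    obtain ⟨zk, hzk⟩ : ∃ zk, zk = z ∘ Sum.inl := ⟨_, rfl⟩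
    obtain ⟨zx, hzx⟩ : ∃ zx, zx = z ∘ Sum.inr := ⟨_, rfl⟩
    have hz : z = Sum.elim zk zx := by rw [hzk, hzx, Sum.elim_comp_inl_inr]
    obtain ⟨yk, hyk⟩ : ∃ yk, yk = (zk - zx ᵥ* toReal (V * S)) ᵥ* toReal Y := ⟨_, rfl⟩
    have e1 : z ᵥ* toReal (fromBlocks Y (-(Y * (Q * V))) (-(V * S * Y))
        (V + V * S * Y * (Q * V)) : Matrix (κ ⊕ X) (ι ⊕ X) (MonoidAlgebra ℤ G)) =
        Sum.elim yk (zx ᵥ* toReal V - yk ᵥ* toReal (Q * V)) := by
      rw [hz, toReal_fromBlocks, Matrix.vecMul_fromBlocks]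
      simp only [Sum.elim_comp_inl, Sum.elim_comp_inr]
      congr 1
      · rw [toReal_neg, Matrix.vecMul_neg, hyk, Matrix.sub_vecMul, vec_mul, sub_eq_add_neg]
      · rw [toReal_neg, Matrix.vecMul_neg, Pool.Agent.Q181.LW.toReal_add, Matrix.vecMul_add, hyk,
          vec_mul, Matrix.sub_vecMul, vec_mul, Matrix.mul_assoc (V * S)]
        abel
    rw [e1, normSq_elim, hz, normSq_elim]
    have n1 := normSq_nonneg zk
    have n2 := normSq_nonneg zx
    have n3 := normSq_nonneg yk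
    have b1 := hS zx
    have b2 := hQ yk
    have b3 := hV zx
    have b4 := normSq_sub_le zk (zx ᵥ* toReal (V * S))
    have b5 := normSq_sub_le (zx ᵥ* toReal V) (yk ᵥ* toReal (Q * V))
    have b6 := hYK (zk - zx ᵥ* toReal (V * S))
    rw [← hyk] at b6
    have c1 : normSq (zk - zx ᵥ* toReal (V * S)) ≤ 6 * l * (normSq zk + normSq zx) := by
      nlinarith
    have c2 : normSq yk ≤ K ^ 2 * (6 * l * (normSq zk + normSq zx)) :=
      b6.trans (mul_le_mul_of_nonneg_left c1 (sq_nonneg K))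
    have c3 : normSq yk + normSq (zx ᵥ* toReal V - yk ᵥ* toReal (Q * V)) ≤
        7 * l * normSq yk + 2 * (l * l * normSq zx) := by nlinarith
    have c4 := mul_le_mul_of_nonneg_left c2 (show (0 : ℝ) ≤ 7 * l by linarith)
    have c5 : 0 ≤ l ^ 2 * normSq zk := by positivity
    have c6 : 0 ≤ l ^ 2 * (normSq zk + normSq zx) := by positivity
    calc normSq yk + normSq (zx ᵥ* toReal V - yk ᵥ* toReal (Q * V))
        ≤ 7 * l * normSq yk + 2 * (l * l * normSq zx) := c3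
      _ ≤ 7 * l * (K ^ 2 * (6 * l * (normSq zk + normSq zx))) + 2 * (l * l * normSq zx) := by
          linarith
      _ = 42 * K ^ 2 * (l ^ 2 * (normSq zk + normSq zx)) + 2 * (l ^ 2 * normSq zx) := by
          ring
      _ ≤ (42 * K ^ 2 + 2) * (l ^ 2 * (normSq zk + normSq zx)) := by nlinarith
      _ ≤ (7 * (K + 1)) ^ 2 * (l ^ 2 * (normSq zk + normSq zx)) := by
          refine mul_le_mul_of_nonneg_right ?_ c6
          nlinarith
      _ = _ := by ring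

end abs

theorem t_zs : S_zs := by
  intro G _ ι κ E _ _ _ _ _ _ s t z L hL hs ht hz A hA
  have h1 : NS ((Pool.Agent.Q181.LR.Vs L : Matrix (E × Fin L) (E × Fin L) (MonoidAlgebra ℤ G)) *
      (Pool.Agent.Q181.LR.Ss t L : Matrix (E × Fin L) κ (MonoidAlgebra ℤ G))) (3 * (L : ℝ)) := by
    rw [Pool.Agent.Q181.LR.VsSs t L hL]
    have h := Pool.Agent.Q181.LR.NS_Sv (G := G) t L ht
    rwa [one_mul] at h
  have h2 : NS ((Pool.Agent.Q181.LR.Qs s z L : Matrix ι (E × Fin L) (MonoidAlgebra ℤ G)) *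
      (Pool.Agent.Q181.LR.Vs L : Matrix (E × Fin L) (E × Fin L) (MonoidAlgebra ℤ G)))
      (3 * (L : ℝ)) := by
    rw [Pool.Agent.Q181.LR.QsVs s z L hL]
    have h := Pool.Agent.Q181.LR.NS_Qv s z L hs hz
    rwa [mul_one] at h
  have h3 : NS (Pool.Agent.Q181.LR.Vs L : Matrix (E × Fin L) (E × Fin L) (MonoidAlgebra ℤ G))
      ((L : ℝ) * L) := Pool.Agent.Q181.LR.NS_Vs L
  have hL1 : (1 : ℝ) ≤ L := by exact_mod_cast hL
  exact ⟨fun D hD hD' => gap_abs A _ _ _ _ (Pool.Agent.Q181.LR.UsVs L)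
      (Pool.Agent.Q181.LR.VsUs L) (Pool.Agent.Q181.LR.QVS s t z L hL A hA) L hL1 h1 h2 h3 D hD hD',
    fun K hK hK' => gi_abs A _ _ _ _ (Pool.Agent.Q181.LR.UsVs L)
      (Pool.Agent.Q181.LR.VsUs L) (Pool.Agent.Q181.LR.QVS s t z L hL A hA) L hL1 h1 h2 h3 K hK hK'⟩

end Pool.Agent.Q151.LG
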